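import Mathlib

set_option autoImplicit false

namespace Pool.Agent.Results.MP_4671c3_co.LogRank

open Finset

universe u v

/-- A (finite) partial latin square: a finite set of triples (row, column, symbol) in which any two
coordinates of a triple determine the third. -/
def IsPartialLatinSquare {R C S : Type u} (P : Finset (R × C × S)) : Prop :=
  (∀ r c s s', (r, c, s) ∈ P → (r, c, s') ∈ P → s = s') ∧
  (∀ r c c' s, (r, c, s) ∈ P → (r, c', s) ∈ P → c = c') ∧
  (∀ r r' c s, (r, c, s) ∈ P → (r', c, s) ∈ P → r = r')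

/-- A latin bitrade `(W, B)`: two nonempty partial latin squares filling the same cells, such that
corresponding rows contain the same symbols, corresponding columns contain the same symbols, and
no cell carries the same symbol in both. -/
structure IsLatinBitrade {R C S : Type u} (W B : Finset (R × C × S)) : Prop where
  nonempty_left : W.Nonempty
  nonempty_right : B.Nonempty
  pls_left : IsPartialLatinSquare W
  pls_right : IsPartialLatinSquare B
  cells : ∀ r c, (∃ s, (r, c, s) ∈ W) ↔ (∃ s, (r, c, s) ∈ B)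
  rows : ∀ r s, (∃ c, (r, c, s) ∈ W) ↔ (∃ c, (r, c, s) ∈ B)
  cols : ∀ c s, (∃ r, (r, c, s) ∈ W) ↔ (∃ r, (r, c, s) ∈ B)
  disjoint : ∀ r c s, (r, c, s) ∈ W → (r, c, s) ∉ B

/-- `P` embeds in the abelian group `G`: there are maps of rows, columns and symbols to `G`,
injective on the rows, on the columns and on the symbols occurring in `P`, with
`α r + β c = γ s` for every triple of `P`. -/
def Embeds {R C S : Type u} (P : Finset (R × C × S)) (G : Type v) [AddCommGroup G] : Prop :=
  ∃ (α : R → G) (β : C → G) (γ : S → G),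
    Set.InjOn α {r | ∃ c s, (r, c, s) ∈ P} ∧
    Set.InjOn β {c | ∃ r s, (r, c, s) ∈ P} ∧
    Set.InjOn γ {s | ∃ r c, (r, c, s) ∈ P} ∧
    ∀ r c s, (r, c, s) ∈ P → α r + β c = γ s

/-- `rho W B` is the least rank (minimal number of generators) of a finitely generated abelian
group in which both mates `W` and `B` embed. -/
noncomputable def rho {R C S : Type u} (W B : Finset (R × C × S)) : ℕ :=
  sInf {k : ℕ | ∃ (G : Type) (_ : AddCommGroup G) (_ : AddGroup.FG G),
    AddGroup.rank G = k ∧ Embeds W G ∧ Embeds B G}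

/-! ### Characters of finitely generated abelian groups -/

/-- A nonzero element of a finitely generated abelian group is detected by a homomorphism to a
finite cyclic group. -/
lemma exists_zmod_character {G : Type v} [AddCommGroup G] [AddGroup.FG G] {x : G} (hx : x ≠ 0) :
    ∃ (M : ℕ) (_ : 0 < M) (χ : G →+ ZMod M), χ x ≠ 0 := by
  classical
  obtain ⟨n, ι, _, p, hp, e, ⟨f⟩⟩ := AddCommGroup.equiv_free_prod_directSum_zmod G
  have hfx : f x ≠ 0 := by
    intro h
    exact hx (by simpa using h)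
  by_cases h1 : (f x).1 = 0
  · have h2 : (f x).2 ≠ 0 := by
      intro h
      exact hfx (Prod.ext h1 h)
    have h3 : ∃ i, (f x).2 i ≠ 0 := by
      by_contra hcon
      push Not at hcon
      exact h2 (DFinsupp.ext hcon)
    obtain ⟨i, hi⟩ := h3
    refine ⟨p i ^ e i, pow_pos (hp i).pos _, ?_⟩
    exact ⟨((DirectSum.component ℤ ι (fun i => ZMod (p i ^ e i)) i).toAddMonoidHom.comp
      (AddMonoidHom.snd _ _)).comp f.toAddMonoidHom, hi⟩
  · have h3 : ∃ i, (f x).1 i ≠ 0 := by
      by_contra hcon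
      push Not at hcon
      exact h1 (Finsupp.ext hcon)
    obtain ⟨i, hi⟩ := h3
    set a : ℤ := (f x).1 i with ha
    refine ⟨a.natAbs + 1, Nat.succ_pos _, ?_⟩
    refine ⟨((Int.castAddHom (ZMod (a.natAbs + 1))).comp
      ((Finsupp.applyAddHom i).comp (AddMonoidHom.fst _ _))).comp f.toAddMonoidHom, ?_⟩
    have : ((a : ℤ) : ZMod (a.natAbs + 1)) ≠ 0 := by
      rw [Ne, ZMod.intCast_zmod_eq_zero_iff_dvd]
      intro hdvd
      have h4 := Int.natAbs_dvd_natAbs.mpr hdvd
      have h5 := Nat.le_of_dvd (Int.natAbs_pos.mpr hi) h4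
      rw [Int.natAbs_natCast] at h5
      omega
    simpa [ha] using this

/-- Enlarging the modulus. -/
lemma exists_character_of_dvd {G : Type v} [AddCommGroup G] {x : G} {M M' : ℕ} (hM' : 0 < M')
    (hdvd : M ∣ M') (h : ∃ χ : G →+ ZMod M, χ x ≠ 0) : ∃ χ : G →+ ZMod M', χ x ≠ 0 := by
  obtain ⟨χ, hχ⟩ := h
  obtain ⟨k, rfl⟩ := hdvd
  have hk : 0 < k := Nat.pos_of_mul_pos_left hM' |> fun h => by
    rcases Nat.eq_zero_or_pos k with h0 | h0
    · subst h0; simp at hM'
    · exact h0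
  let g : ℤ →+ ZMod (M * k) := (Int.castAddHom (ZMod (M * k))).comp (AddMonoidHom.mulRight (k : ℤ))
  have hg : g M = 0 := by
    show (((M : ℤ) * (k : ℤ) : ℤ) : ZMod (M * k)) = 0
    rw [ZMod.intCast_zmod_eq_zero_iff_dvd]
    push_cast
    exact dvd_refl _
  have hinj : Function.Injective (ZMod.lift M ⟨g, hg⟩) := by
    rw [ZMod.lift_injective]
    intro m hm
    change ((m * (k : ℤ) : ℤ) : ZMod (M * k)) = 0 at hm
    rw [ZMod.intCast_zmod_eq_zero_iff_dvd] at hm ⊢
    push_cast at hm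
    exact Int.dvd_of_mul_dvd_mul_right (by exact_mod_cast hk.ne') hm
  refine ⟨(ZMod.lift M ⟨g, hg⟩).comp χ, ?_⟩
  intro h0
  apply hχ
  apply hinj
  simpa using h0

lemma finite_characters (G : Type v) [AddCommGroup G] [AddGroup.FG G] (M : ℕ) [NeZero M] :
    Finite (G →+ ZMod M) := by
  classical
  obtain ⟨S, hS⟩ := (AddGroup.fg_def (H := G)).mp inferInstance
  refine Finite.of_injective (fun χ : G →+ ZMod M => fun s : S => χ s) ?_
  intro χ ψ h
  refine AddMonoidHom.eq_of_eqOn_dense hS ?_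
  intro s hs
  exact congrFun h ⟨s, hs⟩

/-- At most half of the characters vanish at a point which is not a common zero. -/
lemma two_mul_card_vanish_le {G : Type v} [AddCommGroup G] {M : ℕ} [Fintype (G →+ ZMod M)]
    {x : G} (hx : ∃ χ : G →+ ZMod M, χ x ≠ 0) :
    2 * #{χ : G →+ ZMod M | χ x = 0} ≤ Fintype.card (G →+ ZMod M) := by
  classical
  obtain ⟨χ₀, h₀⟩ := hx
  have h1 : #{χ : G →+ ZMod M | χ x = 0} ≤ #{χ : G →+ ZMod M | ¬ χ x = 0} := by
    apply Finset.card_le_card_of_injOn (fun χ => χ + χ₀)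
    · intro χ hχ
      simp only [Finset.coe_filter, Finset.mem_univ, true_and, Set.mem_ofPred_eq] at hχ ⊢
      simpa [hχ] using h₀
    · intro a _ b _ hab
      exact add_right_cancel hab
  have h2 := Finset.card_filter_add_card_filter_not (s := (Finset.univ : Finset (G →+ ZMod M)))
    (fun χ => χ x = 0)
  rw [Finset.card_univ] at h2
  omega

/-- Averaging: some character vanishes on at most half of a finite set. -/
lemma exists_halving {G : Type v} [AddCommGroup G] [AddGroup.FG G] {M : ℕ} [NeZero M]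
    (X : Finset G) (hX : ∀ x ∈ X, ∃ χ : G →+ ZMod M, χ x ≠ 0) :
    ∃ χ : G →+ ZMod M, 2 * #{x ∈ X | χ x = 0} ≤ #X := by
  classical
  have := finite_characters G M
  have := Fintype.ofFinite (G →+ ZMod M)
  by_contra hcon
  push Not at hcon
  have hdc : ∑ χ : G →+ ZMod M, #{x ∈ X | χ x = 0}
      = ∑ x ∈ X, #{χ : G →+ ZMod M | χ x = 0} :=
    Finset.sum_card_bipartiteAbove_eq_sum_card_bipartiteBelow
      (r := fun (χ : G →+ ZMod M) x => χ x = 0)
  have h1 : ∑ χ : G →+ ZMod M, 2 * #{x ∈ X | χ x = 0} ≤ #X * Fintype.card (G →+ ZMod M) := by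
    rw [← Finset.mul_sum, hdc, Finset.mul_sum]
    calc ∑ x ∈ X, 2 * #{χ : G →+ ZMod M | χ x = 0}
        ≤ ∑ x ∈ X, Fintype.card (G →+ ZMod M) :=
          Finset.sum_le_sum fun x hx => two_mul_card_vanish_le (hX x hx)
      _ = #X * Fintype.card (G →+ ZMod M) := by simp
  have h2 : ∑ χ : G →+ ZMod M, #X < ∑ χ : G →+ ZMod M, 2 * #{x ∈ X | χ x = 0} :=
    Finset.sum_lt_sum_of_nonempty ⟨0, Finset.mem_univ _⟩ fun χ _ => hcon χ
  rw [Finset.sum_const, Finset.card_univ, smul_eq_mul] at h2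
  have := Nat.mul_comm (Fintype.card (G →+ ZMod M)) #X
  omega

/-- Iterated halving: a set of fewer than `2 ^ m` detected elements is detected by one
homomorphism to `(ZMod M) ^ m`. -/
lemma exists_hom_pi {G : Type v} [AddCommGroup G] [AddGroup.FG G] {M : ℕ} [NeZero M] :
    ∀ (m : ℕ) (X : Finset G), #X < 2 ^ m → (∀ x ∈ X, ∃ χ : G →+ ZMod M, χ x ≠ 0) →
      ∃ φ : G →+ (Fin m → ZMod M), ∀ x ∈ X, φ x ≠ 0 := by
  classical
  intro m
  induction m with
  | zero =>
    intro X hcard _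
    have : X = ∅ := by
      rw [← Finset.card_eq_zero]; simpa using hcard
    subst this
    exact ⟨0, by simp⟩
  | succ m ih =>
    intro X hcard hX
    obtain ⟨χ, hχ⟩ := exists_halving X hX
    obtain ⟨φ, hφ⟩ := ih {x ∈ X | χ x = 0} (by rw [pow_succ] at hcard; omega)
      (fun x hx => hX x (Finset.mem_filter.mp hx).1)
    let ψ : G →+ (Fin (m + 1) → ZMod M) :=
      { toFun := fun g => Fin.cons (χ g) (φ g)
        map_zero' := by
          funext i
          refine Fin.cases ?_ (fun j => ?_) i <;> simp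
        map_add' := fun a b => by
          funext i
          refine Fin.cases ?_ (fun j => ?_) i <;> simp }
    refine ⟨ψ, fun x hx h0 => ?_⟩
    by_cases hz : χ x = 0
    · refine hφ x (Finset.mem_filter.mpr ⟨hx, hz⟩) ?_
      funext j
      have := congrFun h0 j.succ
      simpa [ψ] using this
    · apply hz
      have := congrFun h0 0
      simpa [ψ] using this

/-- A set of `r` elements has `r.choose 2` differences up to sign. -/
lemma exists_differences {G : Type v} [AddCommGroup G] (A : Finset G) :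
    ∃ D : Finset G, 2 * #D ≤ #A * (#A - 1) ∧ (∀ d ∈ D, d ≠ 0) ∧
      ∀ x ∈ A, ∀ y ∈ A, x ≠ y → x - y ∈ D ∨ y - x ∈ D := by
  classical
  induction A using Finset.induction_on with
  | empty => exact ⟨∅, by simp, by simp, by simp⟩
  | insert a A ha ih =>
    obtain ⟨D, hD1, hD2, hD3⟩ := ih
    refine ⟨D ∪ A.image (fun y => a - y), ?_, ?_, ?_⟩
    · rw [Finset.card_insert_of_notMem ha]
      have h1 := Finset.card_union_le D (A.image (fun y => a - y))
      have h2 : #(A.image (fun y => a - y)) ≤ #A := Finset.card_image_le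
      have h3 : (#A + 1) * (#A + 1 - 1) = #A * (#A - 1) + 2 * #A := by
        rcases Nat.eq_zero_or_pos #A with h | h
        · simp [h]
        · obtain ⟨k, hk⟩ : ∃ k, #A = k + 1 := ⟨#A - 1, by omega⟩
          rw [hk]; simp only [Nat.add_sub_cancel]; ring
      rw [h3]; omega
    · intro d hd
      rcases Finset.mem_union.mp hd with hd | hd
      · exact hD2 d hd
      · obtain ⟨y, hy, rfl⟩ := Finset.mem_image.mp hd
        intro h0
        rw [sub_eq_zero] at h0
        subst h0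
        exact ha hy
    · intro x hx y hy hxy
      rcases Finset.mem_insert.mp hx with rfl | hx'
      · rcases Finset.mem_insert.mp hy with rfl | hy'
        · exact absurd rfl hxy
        · exact Or.inl (Finset.mem_union_right _ (Finset.mem_image_of_mem _ hy'))
      · rcases Finset.mem_insert.mp hy with rfl | hy'
        · exact Or.inr (Finset.mem_union_right _ (Finset.mem_image_of_mem _ hx'))
        · rcases hD3 x hx' y hy' hxy with h | h
          · exact Or.inl (Finset.mem_union_left _ h)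
          · exact Or.inr (Finset.mem_union_left _ h)

/-! ### Counting rows, columns and symbols of a bitrade -/

lemma two_mul_card_image_le {α β : Type*} [DecidableEq β] (P : Finset α) (f : α → β)
    (h : ∀ p ∈ P, ∃ q ∈ P, q ≠ p ∧ f q = f p) : 2 * #(P.image f) ≤ #P := by
  classical
  rw [Finset.card_eq_sum_card_image f P]
  calc 2 * #(P.image f) = ∑ b ∈ P.image f, 2 := by simp [mul_comm]
    _ ≤ ∑ b ∈ P.image f, #{a ∈ P | f a = b} := by
      apply Finset.sum_le_sum
      intro b hb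
      obtain ⟨p, hp, rfl⟩ := Finset.mem_image.mp hb
      obtain ⟨q, hq, hqp, hfq⟩ := h p hp
      have : ({p, q} : Finset α) ⊆ {a ∈ P | f a = f p} := by
        intro x hx
        simp only [Finset.mem_insert, Finset.mem_singleton] at hx
        rcases hx with rfl | rfl
        · simp [hp]
        · simp [hq, hfq]
      calc 2 = #({p, q} : Finset α) := (Finset.card_pair hqp.symm).symm
        _ ≤ _ := Finset.card_le_card this

variable {R C S : Type u}

lemma IsLatinBitrade.symm {W B : Finset (R × C × S)} (h : IsLatinBitrade W B) :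
    IsLatinBitrade B W where
  nonempty_left := h.nonempty_right
  nonempty_right := h.nonempty_left
  pls_left := h.pls_right
  pls_right := h.pls_left
  cells := fun r c => (h.cells r c).symm
  rows := fun r s => (h.rows r s).symm
  cols := fun c s => (h.cols c s).symm
  disjoint := fun r c s hB hW => h.disjoint r c s hW hB

lemma IsLatinBitrade.card_le {W B : Finset (R × C × S)} (h : IsLatinBitrade W B) :
    #W ≤ #B := by
  classical
  have h1 : #W = #(W.image fun p => (p.1, p.2.1)) := by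
    symm
    apply Finset.card_image_of_injOn
    rintro ⟨r, c, s⟩ hp ⟨r', c', s'⟩ hq hpq
    simp only [Prod.mk.injEq] at hpq
    obtain ⟨rfl, rfl⟩ := hpq
    have := h.pls_left.1 r c s s' hp hq
    rw [this]
  have h2 : (W.image fun p => (p.1, p.2.1)) ⊆ (B.image fun p => (p.1, p.2.1)) := by
    intro x hx
    obtain ⟨⟨r, c, s⟩, hp, rfl⟩ := Finset.mem_image.mp hx
    obtain ⟨s', hs'⟩ := (h.cells r c).mp ⟨s, hp⟩
    exact Finset.mem_image.mpr ⟨(r, c, s'), hs', rfl⟩
  rw [h1]
  exact (Finset.card_le_card h2).trans Finset.card_image_le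

lemma IsLatinBitrade.card_eq {W B : Finset (R × C × S)} (h : IsLatinBitrade W B) :
    #W = #B := le_antisymm h.card_le h.symm.card_le

lemma IsLatinBitrade.rows_le [DecidableEq R] {W B : Finset (R × C × S)}
    (h : IsLatinBitrade W B) : 2 * #(W.image fun p => p.1) ≤ #W := by
  apply two_mul_card_image_le
  rintro ⟨r, c, s⟩ hp
  obtain ⟨s', hs'⟩ := (h.cells r c).mp ⟨s, hp⟩
  obtain ⟨c', hc'⟩ := (h.rows r s').mpr ⟨c, hs'⟩
  refine ⟨(r, c', s'), hc', ?_, rfl⟩
  intro heq
  simp only [Prod.mk.injEq, true_and] at heq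
  obtain ⟨_, rfl⟩ := heq
  exact h.disjoint r c s' hp hs'

lemma IsLatinBitrade.cols_le [DecidableEq C] {W B : Finset (R × C × S)}
    (h : IsLatinBitrade W B) : 2 * #(W.image fun p => p.2.1) ≤ #W := by
  apply two_mul_card_image_le
  rintro ⟨r, c, s⟩ hp
  obtain ⟨s', hs'⟩ := (h.cells r c).mp ⟨s, hp⟩
  obtain ⟨r', hr'⟩ := (h.cols c s').mpr ⟨r, hs'⟩
  refine ⟨(r', c, s'), hr', ?_, rfl⟩
  intro heq
  simp only [Prod.mk.injEq, true_and] at heq
  obtain ⟨_, rfl⟩ := heq
  exact h.disjoint r c s' hp hs'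

lemma IsLatinBitrade.symbols_le [DecidableEq S] {W B : Finset (R × C × S)}
    (h : IsLatinBitrade W B) : 2 * #(W.image fun p => p.2.2) ≤ #W := by
  apply two_mul_card_image_le
  rintro ⟨r, c, s⟩ hp
  obtain ⟨c', hc'⟩ := (h.rows r s).mp ⟨c, hp⟩
  obtain ⟨r', hr'⟩ := (h.cols c' s).mpr ⟨r, hc'⟩
  refine ⟨(r', c', s), hr', ?_, rfl⟩
  intro heq
  simp only [Prod.mk.injEq, and_true] at heq
  obtain ⟨_, rfl⟩ := heq
  exact h.disjoint r c' s hp hc'

/-! ### Embedding in a group of small rank -/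

lemma Embeds.exists_fg {P : Finset (R × C × S)} {G : Type v} [AddCommGroup G]
    (h : Embeds P G) : ∃ H : AddSubgroup G, AddGroup.FG H ∧ Embeds P H := by
  classical
  obtain ⟨α, β, γ, hα, hβ, hγ, hP⟩ := h
  let T : Finset G := (P.image fun p => α p.1) ∪ (P.image fun p => β p.2.1)
  let H : AddSubgroup G := AddSubgroup.closure (T : Set G)
  have hαH : ∀ r c s, (r, c, s) ∈ P → α r ∈ H := fun r c s hp =>
    AddSubgroup.subset_closure (by
      rw [Finset.mem_coe]
      exact Finset.mem_union_left _ (Finset.mem_image.mpr ⟨(r, c, s), hp, rfl⟩))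
  have hβH : ∀ r c s, (r, c, s) ∈ P → β c ∈ H := fun r c s hp =>
    AddSubgroup.subset_closure (by
      rw [Finset.mem_coe]
      exact Finset.mem_union_right _ (Finset.mem_image.mpr ⟨(r, c, s), hp, rfl⟩))
  have hγH : ∀ r c s, (r, c, s) ∈ P → γ s ∈ H := fun r c s hp => by
    rw [← hP r c s hp]
    exact H.add_mem (hαH r c s hp) (hβH r c s hp)
  refine ⟨H, AddGroup.closure_finset_fg T, ?_⟩
  refine ⟨fun r => if hr : α r ∈ H then ⟨α r, hr⟩ else 0,
    fun c => if hc : β c ∈ H then ⟨β c, hc⟩ else 0,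
    fun s => if hs : γ s ∈ H then ⟨γ s, hs⟩ else 0, ?_, ?_, ?_, ?_⟩
  · rintro r ⟨c, s, hp⟩ r' ⟨c', s', hp'⟩ heq
    simp only [hαH r c s hp, hαH r' c' s' hp', dite_true, Subtype.mk.injEq] at heq
    exact hα ⟨c, s, hp⟩ ⟨c', s', hp'⟩ heq
  · rintro c ⟨r, s, hp⟩ c' ⟨r', s', hp'⟩ heq
    simp only [hβH r c s hp, hβH r' c' s' hp', dite_true, Subtype.mk.injEq] at heq
    exact hβ ⟨r, s, hp⟩ ⟨r', s', hp'⟩ heq
  · rintro s ⟨r, c, hp⟩ s' ⟨r', c', hp'⟩ heq
    simp only [hγH r c s hp, hγH r' c' s' hp', dite_true, Subtype.mk.injEq] at heq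
    exact hγ ⟨r, c, hp⟩ ⟨r', c', hp'⟩ heq
  · intro r c s hp
    simp only [hαH r c s hp, hβH r c s hp, hγH r c s hp, dite_true]
    exact Subtype.ext (hP r c s hp)

lemma map_ne_of_differences {G H : Type*} [AddCommGroup G] [AddCommGroup H] (φ : G →+ H)
    {A D : Finset G} (hD : ∀ x ∈ A, ∀ y ∈ A, x ≠ y → x - y ∈ D ∨ y - x ∈ D)
    (hφ : ∀ d ∈ D, φ d ≠ 0) {x y : G} (hx : x ∈ A) (hy : y ∈ A) (h : φ x = φ y) : x = y := by
  by_contra hxy
  rcases hD x hx y hy hxy with h1 | h1
  · exact hφ _ h1 (by rw [map_sub, h, sub_self])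
  · exact hφ _ h1 (by rw [map_sub, h, sub_self])

lemma embeds_pi {W B : Finset (R × C × S)} (hWB : IsLatinBitrade W B) {m : ℕ}
    (hm : #W ^ 2 < 2 * 2 ^ m) {G : Type v} [AddCommGroup G] (hG : Embeds W G) :
    ∃ M₀ : ℕ, 0 < M₀ ∧ ∀ M : ℕ, 0 < M → M₀ ∣ M → Embeds W (Fin m → ZMod M) := by
  classical
  obtain ⟨H, hH, α, β, γ, hα, hβ, hγ, hP⟩ := hG.exists_fg
  have hr := hWB.rows_le
  have hc := hWB.cols_le
  have hs := hWB.symbols_le
  obtain ⟨D₁, h11, h12, h13⟩ := exists_differences ((W.image fun p => p.1).image α)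
  obtain ⟨D₂, h21, h22, h23⟩ := exists_differences ((W.image fun p => p.2.1).image β)
  obtain ⟨D₃, h31, h32, h33⟩ := exists_differences ((W.image fun p => p.2.2).image γ)
  have e1 : #((W.image fun p => p.1).image α) ≤ #(W.image fun p => p.1) := Finset.card_image_le
  have e2 : #((W.image fun p => p.2.1).image β) ≤ #(W.image fun p => p.2.1) :=
    Finset.card_image_le
  have e3 : #((W.image fun p => p.2.2).image γ) ≤ #(W.image fun p => p.2.2) :=
    Finset.card_image_le
  have key : ∀ a d n : ℕ, 2 * a ≤ n → 2 * d ≤ a * (a - 1) → 8 * d ≤ n ^ 2 := by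
    intro a d n h1 h2
    have h3 : a * (a - 1) ≤ a * a := Nat.mul_le_mul_left _ (Nat.sub_le _ _)
    nlinarith
  have hcard : #(D₁ ∪ D₂ ∪ D₃) < 2 ^ m := by
    have u1 := Finset.card_union_le (D₁ ∪ D₂) D₃
    have u2 := Finset.card_union_le D₁ D₂
    have k1 := key _ _ #W (by omega) h11
    have k2 := key _ _ #W (by omega) h21
    have k3 := key _ _ #W (by omega) h31
    have hpos : 0 < #W := Finset.card_pos.mpr hWB.nonempty_left
    have hpos2 : 0 < #W ^ 2 := by positivity
    omega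
  have hne : ∀ x ∈ D₁ ∪ D₂ ∪ D₃, x ≠ 0 := by
    intro x hx
    rcases Finset.mem_union.mp hx with hx | hx
    · rcases Finset.mem_union.mp hx with hx | hx
      · exact h12 x hx
      · exact h22 x hx
    · exact h32 x hx
  have hchar : ∀ x : H, ∃ M : ℕ, 0 < M ∧ (x ≠ 0 → ∃ χ : H →+ ZMod M, χ x ≠ 0) := by
    intro x
    by_cases hx : x = 0
    · exact ⟨1, one_pos, fun h => absurd hx h⟩
    · obtain ⟨M, hM, χ, hχ⟩ := exists_zmod_character hx
      exact ⟨M, hM, fun _ => ⟨χ, hχ⟩⟩
  choose Mf hMf1 hMf2 using hchar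
  refine ⟨∏ x ∈ D₁ ∪ D₂ ∪ D₃, Mf x, Finset.prod_pos fun x _ => hMf1 x, ?_⟩
  intro M hM hdvd
  have : NeZero M := ⟨hM.ne'⟩
  obtain ⟨φ, hφ⟩ := exists_hom_pi m (D₁ ∪ D₂ ∪ D₃) hcard (fun x hx =>
    exists_character_of_dvd hM ((Finset.dvd_prod_of_mem Mf hx).trans hdvd)
      (hMf2 x (hne x hx)))
  refine ⟨fun r => φ (α r), fun c => φ (β c), fun s => φ (γ s), ?_, ?_, ?_, ?_⟩
  · rintro r ⟨c, s, hp⟩ r' ⟨c', s', hp'⟩ heq
    apply hα ⟨c, s, hp⟩ ⟨c', s', hp'⟩
    refine map_ne_of_differences φ h13 (fun d hd => hφ d ?_) ?_ ?_ heq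
    · exact Finset.mem_union_left _ (Finset.mem_union_left _ hd)
    · exact Finset.mem_image_of_mem _ (Finset.mem_image.mpr ⟨_, hp, rfl⟩)
    · exact Finset.mem_image_of_mem _ (Finset.mem_image.mpr ⟨_, hp', rfl⟩)
  · rintro c ⟨r, s, hp⟩ c' ⟨r', s', hp'⟩ heq
    apply hβ ⟨r, s, hp⟩ ⟨r', s', hp'⟩
    refine map_ne_of_differences φ h23 (fun d hd => hφ d ?_) ?_ ?_ heq
    · exact Finset.mem_union_left _ (Finset.mem_union_right _ hd)
    · exact Finset.mem_image_of_mem _ (Finset.mem_image.mpr ⟨_, hp, rfl⟩)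
    · exact Finset.mem_image_of_mem _ (Finset.mem_image.mpr ⟨_, hp', rfl⟩)
  · rintro s ⟨r, c, hp⟩ s' ⟨r', c', hp'⟩ heq
    apply hγ ⟨r, c, hp⟩ ⟨r', c', hp'⟩
    refine map_ne_of_differences φ h33 (fun d hd => hφ d ?_) ?_ ?_ heq
    · exact Finset.mem_union_right _ hd
    · exact Finset.mem_image_of_mem _ (Finset.mem_image.mpr ⟨_, hp, rfl⟩)
    · exact Finset.mem_image_of_mem _ (Finset.mem_image.mpr ⟨_, hp', rfl⟩)
  · intro r c s hp
    rw [← map_add, hP r c s hp]

lemma rank_pi_le (m M : ℕ) [NeZero M] : AddGroup.rank (Fin m → ZMod M) ≤ m := by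
  classical
  have h : AddSubgroup.closure
      ((Finset.univ.image fun i : Fin m => (Pi.single i (1 : ZMod M) : Fin m → ZMod M) :
        Finset (Fin m → ZMod M)) : Set (Fin m → ZMod M)) = ⊤ := by
    rw [eq_top_iff]
    intro f _
    rw [← Finset.univ_sum_single f]
    apply AddSubgroup.sum_mem
    intro i _
    have : (Pi.single i (f i) : Fin m → ZMod M) = (f i).val • Pi.single i (1 : ZMod M) := by
      rw [← Pi.single_smul]
      simp
    rw [this]
    apply AddSubgroup.nsmul_mem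
    apply AddSubgroup.subset_closure
    simp
  refine (AddGroup.rank_le h).trans ?_
  exact Finset.card_image_le.trans (by simp)

/-- Both mates embed in a homocyclic group `(ZMod M) ^ m` as soon as `|W| ^ 2 < 2 * 2 ^ m`. -/
lemma embeds_pi_both {W B : Finset (R × C × S)} (hWB : IsLatinBitrade W B) {m : ℕ}
    (hm : #W ^ 2 < 2 * 2 ^ m) {G : Type v} [AddCommGroup G] (hW : Embeds W G)
    (hB : Embeds B G) :
    ∃ (M : ℕ) (_ : NeZero M), Embeds W (Fin m → ZMod M) ∧ Embeds B (Fin m → ZMod M) := by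
  obtain ⟨M₁, h1, h1'⟩ := embeds_pi hWB hm hW
  obtain ⟨M₂, h2, h2'⟩ := embeds_pi hWB.symm (by rwa [← hWB.card_eq]) hB
  have h3 : 0 < M₁ * M₂ := Nat.mul_pos h1 h2
  exact ⟨M₁ * M₂, ⟨h3.ne'⟩, h1' _ h3 (dvd_mul_right _ _), h2' _ h3 (dvd_mul_left _ _)⟩

/-- The logarithmic bound, together with the fact that the least rank is attained. -/
lemma rho_bound {W B : Finset (R × C × S)} (hWB : IsLatinBitrade W B)
    (hG : ∃ (G : Type v) (_ : AddCommGroup G), Embeds W G ∧ Embeds B G) :
    (∃ (G : Type) (_ : AddCommGroup G) (_ : AddGroup.FG G),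
      AddGroup.rank G = rho W B ∧ Embeds W G ∧ Embeds B G) ∧
    2 ^ rho W B ≤ #W ^ 2 := by
  obtain ⟨G, _, hW, hB⟩ := hG
  have hpos : 0 < #W := Finset.card_pos.mpr hWB.nonempty_left
  have hne : #W ^ 2 ≠ 0 := by positivity
  obtain ⟨M, hM, hW', hB'⟩ := embeds_pi_both hWB (m := Nat.log 2 (#W ^ 2))
    (by
      have := Nat.lt_pow_succ_log_self (b := 2) (by norm_num) (#W ^ 2)
      rwa [Nat.succ_eq_add_one, pow_succ' 2] at this) hW hB
  have hmem : AddGroup.rank (Fin (Nat.log 2 (#W ^ 2)) → ZMod M) ∈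
      {k : ℕ | ∃ (G : Type) (_ : AddCommGroup G) (_ : AddGroup.FG G),
        AddGroup.rank G = k ∧ Embeds W G ∧ Embeds B G} :=
    ⟨_, inferInstance, inferInstance, rfl, hW', hB'⟩
  constructor
  · exact Nat.sInf_mem ⟨_, hmem⟩
  · have h1 : rho W B ≤ Nat.log 2 (#W ^ 2) := (Nat.sInf_le hmem).trans (rank_pi_le _ _)
    calc 2 ^ rho W B ≤ 2 ^ Nat.log 2 (#W ^ 2) := Nat.pow_le_pow_right (by norm_num) h1
      _ ≤ #W ^ 2 := Nat.pow_log_le_self 2 hne

/-- **Answer to Q1 (negative).** For every latin bitrade `(W, B)` whose mates both embed in some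
abelian group, the least rank `rho W B` is attained and satisfies `2 ^ rho W B ≤ |W| ^ 2`, that is
`rho W B ≤ 2 log₂ |W|`. Hence `rho` is `o(|W|)` along every family of such bitrades with sizes
tending to infinity, and no such family has `rho (W n) (B n) ≥ c |W n|` for a constant `c > 0`. -/
theorem result :
    (∀ {R C S : Type u} (W B : Finset (R × C × S)), IsLatinBitrade W B →
      (∃ (G : Type v) (_ : AddCommGroup G), Embeds W G ∧ Embeds B G) →
      (∃ (G : Type) (_ : AddCommGroup G) (_ : AddGroup.FG G),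
        AddGroup.rank G = rho W B ∧ Embeds W G ∧ Embeds B G) ∧
      2 ^ rho W B ≤ W.card ^ 2) ∧
    (∀ (R C S : ℕ → Type u) (W B : ∀ n, Finset (R n × C n × S n)),
      (∀ n, IsLatinBitrade (W n) (B n)) →
      (∀ n, ∃ (G : Type v) (_ : AddCommGroup G), Embeds (W n) G ∧ Embeds (B n) G) →
      Filter.Tendsto (fun n => (W n).card) Filter.atTop Filter.atTop →
      (fun n => (rho (W n) (B n) : ℝ)) =o[Filter.atTop] (fun n => ((W n).card : ℝ))) ∧
    ¬ ∃ (R C S : ℕ → Type u) (W B : ∀ n, Finset (R n × C n × S n)) (c : ℝ), 0 < c ∧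
      (∀ n, IsLatinBitrade (W n) (B n)) ∧
      (∀ n, ∃ (G : Type v) (_ : AddCommGroup G), Embeds (W n) G ∧ Embeds (B n) G) ∧
      Filter.Tendsto (fun n => (W n).card) Filter.atTop Filter.atTop ∧
      ∀ n, c * (W n).card ≤ rho (W n) (B n) := by
  have main : ∀ (R C S : ℕ → Type u) (W B : ∀ n, Finset (R n × C n × S n)),
      (∀ n, IsLatinBitrade (W n) (B n)) →
      (∀ n, ∃ (G : Type v) (_ : AddCommGroup G), Embeds (W n) G ∧ Embeds (B n) G) →
      Filter.Tendsto (fun n => (W n).card) Filter.atTop Filter.atTop →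
      (fun n => (rho (W n) (B n) : ℝ)) =o[Filter.atTop] (fun n => ((W n).card : ℝ)) := by
    intro R C S W B hWB hG hT
    have hTR : Filter.Tendsto (fun n => ((W n).card : ℝ)) Filter.atTop Filter.atTop :=
      tendsto_natCast_atTop_atTop.comp hT
    have h1 : (fun n => Real.log ((W n).card : ℝ)) =o[Filter.atTop]
        (fun n => ((W n).card : ℝ)) := Real.isLittleO_log_id_atTop.comp_tendsto hTR
    refine Asymptotics.IsBigO.trans_isLittleO ?_ h1
    refine Asymptotics.IsBigO.of_bound (2 / Real.log 2) (Filter.Eventually.of_forall fun n => ?_)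
    have hpos : 0 < (W n).card := Finset.card_pos.mpr (hWB n).nonempty_left
    have hlog2 : 0 < Real.log 2 := Real.log_pos (by norm_num)
    have hb : (2 : ℝ) ^ rho (W n) (B n) ≤ ((W n).card : ℝ) ^ 2 := by
      exact_mod_cast (rho_bound (hWB n) (hG n)).2
    have hlog := Real.log_le_log (by positivity) hb
    rw [Real.log_pow, Real.log_pow] at hlog
    have hln : 0 ≤ Real.log ((W n).card : ℝ) := Real.log_natCast_nonneg _
    rw [Real.norm_of_nonneg (by positivity), Real.norm_of_nonneg hln, div_mul_eq_mul_div,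
      le_div_iff₀ hlog2]
    exact_mod_cast hlog
  refine ⟨fun W B hWB hG => rho_bound hWB hG, main, ?_⟩
  rintro ⟨R, C, S, W, B, c, hc, hWB, hG, hT, hlin⟩
  have h1 := main R C S W B hWB hG hT
  have h2 := h1.def (half_pos hc)
  obtain ⟨n, hn⟩ := h2.exists
  have hpos : 0 < (W n).card := Finset.card_pos.mpr (hWB n).nonempty_left
  have hposR : (0 : ℝ) < (W n).card := by exact_mod_cast hpos
  rw [Real.norm_of_nonneg (by positivity), Real.norm_of_nonneg (by positivity)] at hn
  have h3 := hlin n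
  nlinarith [mul_pos hc hposR]

end Pool.Agent.Results.MP_4671c3_co.LogRank
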